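import Pool.Agent.H280R3.MO.E

/-!
# Local factors
-/

set_option autoImplicit false

namespace Pool.Agent.Q311.KS

open Finset Complex Filter Topology

/-- the algebraic identity -/
lemma loc_id (a t : ℂ) (c m : ℝ) (hc : c = 2 + 2 * a.re + m) :
    (1 + (c : ℂ) * t) * ((1 - t) * (1 - t) * ((1 - a * t) * (1 - (starRingEnd ℂ) a * t))) - 1 =
      (m : ℂ) * t - (c : ℂ) * ((2 + 2 * a.re : ℝ) : ℂ) * t ^ 2 +
        (1 + (c : ℂ) * t) * ((((1 + 4 * a.re + normSq a : ℝ) : ℂ) -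
          ((2 * a.re + 2 * normSq a : ℝ) : ℂ) * t + ((normSq a : ℝ) : ℂ) * t ^ 2) * t ^ 2) := by
  have h1 : a + (starRingEnd ℂ) a = ((2 * a.re : ℝ) : ℂ) := Complex.add_conj a
  have h2 : a * (starRingEnd ℂ) a = ((normSq a : ℝ) : ℂ) := Complex.mul_conj a
  have h3 : (1 - a * t) * (1 - (starRingEnd ℂ) a * t) =
      1 - ((2 * a.re : ℝ) : ℂ) * t + ((normSq a : ℝ) : ℂ) * t ^ 2 := by
    rw [← h1, ← h2]; ring
  rw [h3, hc]
  push_cast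
  ring

lemma loc_bound (a t : ℂ) (c m : ℝ) (hc : c = 2 + 2 * a.re + m) (hm : 0 ≤ m) (hc0 : 0 ≤ c)
    (hc1 : c ≤ 2 * (1 + ‖a‖)) (h : ‖a‖ * ‖t‖ ≤ 1) (ht : ‖t‖ ≤ 1) :
    ‖(1 + (c : ℂ) * t) * ((1 - t) * (1 - t) * ((1 - a * t) * (1 - (starRingEnd ℂ) a * t))) - 1‖ ≤
      m * ‖t‖ + 29 * (1 + ‖a‖) ^ 2 * ‖t‖ ^ 2 := by
  rw [loc_id a t c m hc]
  set A := ‖a‖ with hA
  set r := ‖t‖ with hr
  have hA0 : 0 ≤ A := norm_nonneg _
  have hr0 : 0 ≤ r := norm_nonneg _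
  have hx : |a.re| ≤ A := Complex.abs_re_le_norm a
  have hx1 := abs_le.1 hx
  have hn : normSq a = A ^ 2 := by rw [hA, Complex.normSq_eq_norm_sq]
  have e1 : ‖((m : ℝ) : ℂ) * t‖ = m * r := by
    rw [norm_mul, Complex.norm_real, Real.norm_of_nonneg hm]
  have e2 : ‖(c : ℂ) * ((2 + 2 * a.re : ℝ) : ℂ) * t ^ 2‖ ≤ 4 * (1 + A) ^ 2 * r ^ 2 := by
    rw [norm_mul, norm_mul, norm_pow, Complex.norm_real, Complex.norm_real,
      Real.norm_of_nonneg hc0]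
    have h5 : ‖(2 + 2 * a.re : ℝ)‖ ≤ 2 * (1 + A) := by
      rw [Real.norm_eq_abs, abs_le]; constructor <;> linarith
    calc c * ‖(2 + 2 * a.re : ℝ)‖ * r ^ 2 ≤ (2 * (1 + A)) * (2 * (1 + A)) * r ^ 2 := by
          have : 0 ≤ ‖(2 + 2 * a.re : ℝ)‖ := norm_nonneg _
          gcongr
      _ = 4 * (1 + A) ^ 2 * r ^ 2 := by ring
  have e3 : ‖(1 : ℂ) + (c : ℂ) * t‖ ≤ 5 := by
    refine (norm_add_le _ _).trans ?_
    rw [norm_one, norm_mul, Complex.norm_real, Real.norm_of_nonneg hc0]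
    have : c * r ≤ 2 * (1 + A) * r := by gcongr
    nlinarith
  have e4 : ‖(((1 + 4 * a.re + normSq a : ℝ) : ℂ) -
          ((2 * a.re + 2 * normSq a : ℝ) : ℂ) * t + ((normSq a : ℝ) : ℂ) * t ^ 2) * t ^ 2‖ ≤
      5 * (1 + A) ^ 2 * r ^ 2 := by
    rw [norm_mul, norm_pow]
    refine mul_le_mul_of_nonneg_right ?_ (by positivity)
    have q2 : ‖((1 + 4 * a.re + normSq a : ℝ) : ℂ)‖ ≤ 2 * (1 + A) ^ 2 := by
      rw [Complex.norm_real, Real.norm_eq_abs, hn, abs_le]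
      constructor <;> nlinarith
    have q3 : ‖((2 * a.re + 2 * normSq a : ℝ) : ℂ)‖ ≤ 2 * (1 + A) ^ 2 := by
      rw [Complex.norm_real, Real.norm_eq_abs, hn, abs_le]
      constructor <;> nlinarith
    have q4 : ‖((normSq a : ℝ) : ℂ)‖ ≤ (1 + A) ^ 2 := by
      rw [Complex.norm_real, Real.norm_eq_abs, hn, abs_le]
      constructor <;> nlinarith
    have q3' : ‖((2 * a.re + 2 * normSq a : ℝ) : ℂ) * t‖ ≤ 2 * (1 + A) ^ 2 := by
      rw [norm_mul]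
      calc _ ≤ 2 * (1 + A) ^ 2 * 1 := by gcongr
        _ = _ := by ring
    have q4' : ‖((normSq a : ℝ) : ℂ) * t ^ 2‖ ≤ (1 + A) ^ 2 := by
      rw [norm_mul, norm_pow]
      calc _ ≤ (1 + A) ^ 2 * 1 ^ 2 := by gcongr
        _ = _ := by ring
    calc _ ≤ ‖((1 + 4 * a.re + normSq a : ℝ) : ℂ) -
          ((2 * a.re + 2 * normSq a : ℝ) : ℂ) * t‖ + ‖((normSq a : ℝ) : ℂ) * t ^ 2‖ :=
          norm_add_le _ _
      _ ≤ (‖((1 + 4 * a.re + normSq a : ℝ) : ℂ)‖ + ‖((2 * a.re + 2 * normSq a : ℝ) : ℂ) * t‖) +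
          ‖((normSq a : ℝ) : ℂ) * t ^ 2‖ := by gcongr; exact norm_sub_le _ _
      _ ≤ (2 * (1 + A) ^ 2 + 2 * (1 + A) ^ 2) + (1 + A) ^ 2 := by gcongr
      _ = _ := by ring
  calc _ ≤ ‖((m : ℝ) : ℂ) * t - (c : ℂ) * ((2 + 2 * a.re : ℝ) : ℂ) * t ^ 2‖ + ‖(1 + (c : ℂ) * t) *
        ((((1 + 4 * a.re + normSq a : ℝ) : ℂ) -
          ((2 * a.re + 2 * normSq a : ℝ) : ℂ) * t + ((normSq a : ℝ) : ℂ) * t ^ 2) * t ^ 2)‖ :=
        norm_add_le _ _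
    _ ≤ (m * r + 4 * (1 + A) ^ 2 * r ^ 2) + 5 * (5 * (1 + A) ^ 2 * r ^ 2) := by
        refine add_le_add ((norm_sub_le _ _).trans (by rw [e1]; gcongr)) ?_
        rw [norm_mul]
        gcongr
    _ = _ := by ring

/-- the local inequality at `t ≤ t₀` follows from the one at `t₀` -/
lemma mono_t (a : ℂ) (t t₀ M : ℝ) (ht : 0 < t) (htt : t ≤ t₀) (hM : 1 ≤ M)
    (h : ‖1 - a * (t₀ : ℂ)‖ ≤ (1 + t₀) * M) : ‖1 - a * (t : ℂ)‖ ≤ (1 + t) * M := by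
  have ht0 : 0 < t₀ := lt_of_lt_of_le ht htt
  have sq : ∀ s : ℝ, ‖1 - a * (s : ℂ)‖ ^ 2 = 1 - 2 * a.re * s + normSq a * s ^ 2 := by
    intro s
    rw [← Complex.normSq_eq_norm_sq, Complex.normSq_apply, Complex.normSq_apply]
    simp
    ring
  have h1 : ‖1 - a * (t₀ : ℂ)‖ ^ 2 ≤ ((1 + t₀) * M) ^ 2 := by gcongr
  rw [sq] at h1
  refine le_of_sq_le_sq ?_ (by positivity)
  rw [sq]
  set A := normSq a with hA
  have hA0 : 0 ≤ A := normSq_nonneg a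
  have hxA : a.re ^ 2 ≤ A := by rw [hA, Complex.normSq_apply]; nlinarith
  have hM2 : 1 ≤ M ^ 2 := by nlinarith
  rcases le_total (M ^ 2) A with hc | hc
  · -- convex
    have key : t₀ * (1 - 2 * a.re * t + A * t ^ 2 - ((1 + t) * M) ^ 2) =
        (t₀ - t) * (1 - M ^ 2) + t * (1 - 2 * a.re * t₀ + A * t₀ ^ 2 - ((1 + t₀) * M) ^ 2) -
          (A - M ^ 2) * t₀ * t * (t₀ - t) := by ring
    have k1 : (t₀ - t) * (1 - M ^ 2) ≤ 0 := by nlinarith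
    have k2 : t * (1 - 2 * a.re * t₀ + A * t₀ ^ 2 - ((1 + t₀) * M) ^ 2) ≤ 0 := by nlinarith
    have k3 : 0 ≤ (A - M ^ 2) * t₀ * t * (t₀ - t) := by
      have : 0 ≤ A - M ^ 2 := by linarith
      have : 0 ≤ t₀ - t := by linarith
      positivity
    have : t₀ * (1 - 2 * a.re * t + A * t ^ 2 - ((1 + t) * M) ^ 2) ≤ 0 := by rw [key]; linarith
    have := nonpos_of_mul_nonpos_right this ht0
    linarith
  · have hx : -M ^ 2 ≤ a.re := by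
      have h5 : a.re ^ 2 ≤ (M ^ 2) ^ 2 := by nlinarith
      have := abs_le_of_sq_le_sq' h5 (by positivity)
      linarith [this.1]
    nlinarith [mul_nonneg ht.le (by linarith : 0 ≤ a.re + M ^ 2),
      mul_nonneg (sq_nonneg t) (by linarith : 0 ≤ M ^ 2 - A)]

end Pool.Agent.Q311.KS
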