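import Pool.Agent.Q311.KS.A

/-!
# The corrected local factors
-/

set_option autoImplicit false

namespace Pool.Agent.Q311.KS

open Finset Complex Filter Topology
open Pool.Agent.H280R3.MO

/-- the coefficient `2 + 2 Re(p f(p))`, if it is positive -/
noncomputable def cc (f : ℕ →*₀ ℂ) (p : ℕ) : ℝ := max 0 (2 + 2 * (gh f p).re)

noncomputable def mm (f : ℕ →*₀ ℂ) (p : ℕ) : ℝ := max 0 (-(2 + 2 * (gh f p).re))

/-- the local factor -/
noncomputable def loc (f : ℕ →*₀ ℂ) (p : ℕ) (z : ℂ) : ℂ :=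
  (1 - (p : ℂ) ^ (-z)) * (1 - (p : ℂ) ^ (-z)) *
    ((1 - gh f p * (p : ℂ) ^ (-z)) * (1 - gh (bar f) p * (p : ℂ) ^ (-z)))

noncomputable def kp (f : ℕ →*₀ ℂ) (p : ℕ) (z : ℂ) : ℂ :=
  (1 + (cc f p : ℂ) * (p : ℂ) ^ (-z)) * loc f p z

/-- the defect -/
noncomputable def dd (f : ℕ → ℂ) (p : ℕ) : ℝ :=
  Real.posLog (‖1 - (Real.sqrt p : ℂ) * f p‖ / (1 + 1 / Real.sqrt p))

lemma cc_eq (f : ℕ →*₀ ℂ) (p : ℕ) : cc f p = 2 + 2 * (gh f p).re + mm f p := by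
  unfold cc mm
  rcases le_total 0 (2 + 2 * (gh f p).re) with h | h
  · rw [max_eq_right h, max_eq_left (by linarith)]; ring
  · rw [max_eq_left h, max_eq_right (by linarith)]; ring

lemma mm_nonneg (f : ℕ →*₀ ℂ) (p : ℕ) : 0 ≤ mm f p := le_max_left _ _

lemma cc_nonneg (f : ℕ →*₀ ℂ) (p : ℕ) : 0 ≤ cc f p := le_max_left _ _

lemma cc_le (f : ℕ →*₀ ℂ) (p : ℕ) : cc f p ≤ 2 * (1 + ‖gh f p‖) := by
  have := (abs_le.1 (Complex.abs_re_le_norm (gh f p))).2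
  have h0 := norm_nonneg (gh f p)
  unfold cc
  refine max_le (by linarith) (by linarith)

lemma bar_eq (f : ℕ →*₀ ℂ) (p : ℕ) : gh (bar f) p = (starRingEnd ℂ) (gh f p) := by
  rw [gh_apply, gh_apply, bar_apply]
  simp

lemma gh_le (f : ℕ →*₀ ℂ) (C : ℝ) (hC : Bd f C) (p : ℕ) (hp : p.Prime) :
    ‖gh f p‖ ≤ Real.sqrt p := by
  have hp0 : (0 : ℝ) < p := by exact_mod_cast hp.pos
  have h2 := f_prime_le f C hC p hp
  rw [gh_apply, norm_mul, Complex.norm_natCast, Real.sqrt_eq_rpow]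
  calc (p : ℝ) * ‖f p‖ ≤ p * (p : ℝ) ^ (-(1 / 2) : ℝ) := by gcongr
    _ = (p : ℝ) ^ (1 : ℝ) * (p : ℝ) ^ (-(1 / 2) : ℝ) := by rw [Real.rpow_one]
    _ = _ := by rw [← Real.rpow_add hp0]; norm_num

/-- the majorant -/
noncomputable def U (f : ℕ →*₀ ℂ) (σ : ℝ) (p : ℕ) : ℝ :=
  mm f p * (p : ℝ) ^ (-σ) + 29 * (1 + ‖gh f p‖) ^ 2 * ((p : ℝ) ^ (-σ)) ^ 2

lemma U_nonneg (f : ℕ →*₀ ℂ) (σ : ℝ) (p : ℕ) : 0 ≤ U f σ p := by
  have := mm_nonneg f p
  unfold U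
  positivity

lemma kp_bound (f : ℕ →*₀ ℂ) (C : ℝ) (hC : Bd f C) (p : ℕ) (hp : p.Prime) (σ : ℝ)
    (hσ : 1 / 2 < σ) (z : ℂ) (hz : σ ≤ z.re) : ‖kp f p z - 1‖ ≤ U f σ p := by
  have hp0 : (0 : ℝ) < p := by exact_mod_cast hp.pos
  have hp1 : (1 : ℝ) ≤ p := by exact_mod_cast hp.one_le
  have ht : ‖(p : ℂ) ^ (-z)‖ = (p : ℝ) ^ (-z.re) := by
    rw [Complex.norm_natCast_cpow_of_pos hp.pos]; simp
  have ht' : ‖(p : ℂ) ^ (-z)‖ ≤ (p : ℝ) ^ (-σ) := by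
    rw [ht]; exact Real.rpow_le_rpow_of_exponent_le hp1 (by linarith)
  have hg := gh_le f C hC p hp
  have h1 : ‖gh f p‖ * ‖(p : ℂ) ^ (-z)‖ ≤ 1 := by
    calc _ ≤ Real.sqrt p * (p : ℝ) ^ (-σ) := by gcongr
      _ = (p : ℝ) ^ ((1 / 2 : ℝ) + -σ) := by rw [Real.sqrt_eq_rpow, ← Real.rpow_add hp0]
      _ ≤ 1 := Real.rpow_le_one_of_one_le_of_nonpos hp1 (by linarith)
  have h2 : ‖(p : ℂ) ^ (-z)‖ ≤ 1 :=
    ht'.trans (Real.rpow_le_one_of_one_le_of_nonpos hp1 (by linarith))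
  have h3 := loc_bound (gh f p) ((p : ℂ) ^ (-z)) (cc f p) (mm f p) (cc_eq f p) (mm_nonneg f p)
    (cc_nonneg f p) (cc_le f p) h1 h2
  unfold kp loc U
  rw [bar_eq]
  refine h3.trans ?_
  have hm := mm_nonneg f p
  gcongr

lemma mm_le_dd (f : ℕ →*₀ ℂ) (C : ℝ) (hC : Bd f C) (p : ℕ) (hp : p.Prime) :
    mm f p ≤ 8 * Real.sqrt p * dd f p := by
  have hp0 : (0 : ℝ) < p := by exact_mod_cast hp.pos
  have hp1 : (1 : ℝ) ≤ p := by exact_mod_cast hp.one_le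
  set s := Real.sqrt p with hs
  have hs1 : 1 ≤ s := by rw [hs]; exact Real.one_le_sqrt.2 hp1
  have hss : s * s = p := Real.mul_self_sqrt hp0.le
  have hd0 : 0 ≤ dd f p := Real.posLog_nonneg
  unfold mm
  rcases le_total 0 (2 + 2 * (gh f p).re) with h | h
  · rw [max_eq_left (by linarith)]
    positivity
  rw [max_eq_right (by linarith)]
  set x := (gh f p).re with hx
  have hx1 : x = p * (f p).re := by
    rw [hx, gh_apply]; simp
  have hg := gh_le f C hC p hp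
  have hxa : -s ≤ x := by
    have := (abs_le.1 (Complex.abs_re_le_norm (gh f p))).1
    rw [← hx] at this
    linarith
  set v := -1 - x with hv
  have hv0 : 0 ≤ v := by linarith
  have hvs : v ≤ s + 1 := by linarith
  have hre : (1 - (s : ℂ) * f p).re = 1 - x / s := by
    simp only [sub_re, one_re, mul_re, ofReal_re, ofReal_im, zero_mul, sub_zero]
    rw [hx1, ← hss]
    field_simp
  have hn : 1 - x / s ≤ ‖1 - (s : ℂ) * f p‖ := by
    rw [← hre]; exact Complex.re_le_norm _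
  have hy0 : 0 ≤ v / (s + 1) := by positivity
  have hy1 : v / (s + 1) ≤ 1 := by rw [div_le_one (by linarith)]; exact hvs
  have hR : 1 + v / (s + 1) ≤ ‖1 - (s : ℂ) * f p‖ / (1 + 1 / s) := by
    rw [le_div_iff₀ (by positivity)]
    refine le_trans (le_of_eq ?_) hn
    have : x = -1 - v := by rw [hv]; ring
    rw [this]
    field_simp
    ring
  have h4 : v / (s + 1) / 2 ≤ dd f p := by
    unfold dd
    rw [← hs]
    have h5 : Real.log (1 + v / (s + 1)) ≤ Real.posLog (‖1 - (s : ℂ) * f p‖ / (1 + 1 / s)) := by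
      refine (Real.log_le_log (by positivity) hR).trans ?_
      exact le_max_right _ _
    refine le_trans ?_ h5
    have h6 := Real.one_sub_inv_le_log_of_pos (show 0 < 1 + v / (s + 1) by positivity)
    refine le_trans ?_ h6
    set y := v / (s + 1) with hy
    have : 1 - (1 + y)⁻¹ = y / (1 + y) := by field_simp; ring
    rw [this, div_le_div_iff₀ (by norm_num) (by positivity)]
    nlinarith
  have h7 : v ≤ 2 * (s + 1) * dd f p := by
    have : v = v / (s + 1) / 2 * (2 * (s + 1)) := by field_simp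
    rw [this]
    nlinarith
  have : -(2 + 2 * x) = 2 * v := by rw [hv]; ring
  rw [this]
  nlinarith

lemma summable_ind (g : ℕ → ℝ) (h : Summable (fun p : Nat.Primes => g p)) :
    Summable (fun n : ℕ => if n.Prime then g n else 0) := by
  have h1 := (summable_subtype_iff_indicator (f := g) (s := {p : ℕ | p.Prime})).1 h
  refine h1.congr fun n => ?_
  rw [Set.indicator_apply]
  rfl

/-- the hypothesis on the sizes -/
def HA (f : ℕ → ℂ) : Prop :=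
  ∀ ε : ℝ, 0 < ε → Summable (fun p : Nat.Primes => ‖f p‖ ^ 2 * (p : ℝ) ^ (1 - ε))

lemma U_summable (f : ℕ →*₀ ℂ) (C : ℝ) (hC : Bd f C) (hA : HA f)
    (hE : Summable (fun p : Nat.Primes => dd f p)) (σ : ℝ) (hσ : 1 / 2 < σ) :
    Summable (fun n : ℕ => if n.Prime then U f σ n else 0) := by
  refine summable_ind _ ?_
  have s1 : Summable (fun p : Nat.Primes => 8 * dd f p) := hE.mul_left 8
  have s2 : Summable (fun p : Nat.Primes => (58 : ℝ) * (p : ℝ) ^ (-(2 * σ))) :=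
    (Nat.Primes.summable_rpow.2 (by linarith)).mul_left _
  have s3 : Summable (fun p : Nat.Primes => (58 : ℝ) * (‖f p‖ ^ 2 * (p : ℝ) ^ (1 - (2 * σ - 1)))) :=
    (hA (2 * σ - 1) (by linarith)).mul_left _
  refine Summable.of_nonneg_of_le (fun p => U_nonneg f σ p) (fun p => ?_) ((s1.add s2).add s3)
  have hp := p.2
  have hp0 : (0 : ℝ) < (p : ℕ) := by exact_mod_cast hp.pos
  have hp1 : (1 : ℝ) ≤ (p : ℕ) := by exact_mod_cast hp.one_le
  unfold U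
  have e1 : mm f p * ((p : ℕ) : ℝ) ^ (-σ) ≤ 8 * dd f p := by
    have h1 := mm_le_dd f C hC p hp
    have h2 : ((p : ℕ) : ℝ) ^ (-σ) ≤ (Real.sqrt (p : ℕ))⁻¹ := by
      rw [Real.sqrt_eq_rpow, ← Real.rpow_neg hp0.le]
      exact Real.rpow_le_rpow_of_exponent_le hp1 (by linarith)
    have hd0 : 0 ≤ dd f p := Real.posLog_nonneg
    have hsp : 0 < Real.sqrt (p : ℕ) := Real.sqrt_pos.2 hp0
    calc mm f p * ((p : ℕ) : ℝ) ^ (-σ)
        ≤ (8 * Real.sqrt (p : ℕ) * dd f p) * (Real.sqrt (p : ℕ))⁻¹ := by gcongr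
      _ = 8 * dd f p := by field_simp
  have e2 : (((p : ℕ) : ℝ) ^ (-σ)) ^ 2 = ((p : ℕ) : ℝ) ^ (-(2 * σ)) := by
    rw [← Real.rpow_natCast, ← Real.rpow_mul hp0.le]; congr 1; push_cast; ring
  have e3 : (1 + ‖gh f p‖) ^ 2 ≤ 2 + 2 * ‖gh f p‖ ^ 2 := by
    nlinarith [sq_nonneg (1 - ‖gh f p‖)]
  have e4 : ‖gh f p‖ ^ 2 * ((p : ℕ) : ℝ) ^ (-(2 * σ)) =
      ‖f p‖ ^ 2 * ((p : ℕ) : ℝ) ^ (1 - (2 * σ - 1)) := by
    rw [gh_apply, norm_mul, Complex.norm_natCast, mul_pow]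
    have : ((p : ℕ) : ℝ) ^ (1 - (2 * σ - 1)) = ((p : ℕ) : ℝ) ^ 2 * ((p : ℕ) : ℝ) ^ (-(2 * σ)) := by
      rw [← Real.rpow_natCast, ← Real.rpow_add hp0]; congr 1; push_cast; ring
    rw [this]; ring
  have hr : 0 < ((p : ℕ) : ℝ) ^ (-(2 * σ)) := Real.rpow_pos_of_pos hp0 _
  rw [e2]
  calc _ ≤ 8 * dd f p + 29 * (2 + 2 * ‖gh f p‖ ^ 2) * ((p : ℕ) : ℝ) ^ (-(2 * σ)) := by gcongr
    _ = 8 * dd f p + 58 * ((p : ℕ) : ℝ) ^ (-(2 * σ)) +
        58 * (‖gh f p‖ ^ 2 * ((p : ℕ) : ℝ) ^ (-(2 * σ))) := by ring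
    _ = _ := by rw [e4]

end Pool.Agent.Q311.KS
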