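import Pool.Agent.Q311.KS.B

/-!
# The infinite product of the corrections
-/

set_option autoImplicit false

namespace Pool.Agent.Q311.KS

open Finset Complex Filter Topology
open Pool.Agent.H280R3.MO

open Classical in
/-- the correction minus one -/
noncomputable def kap (f : ℕ →*₀ ℂ) (N n : ℕ) (z : ℂ) : ℂ :=
  if n.Prime ∧ N ≤ n then kp f n z - 1 else 0

/-- the infinite product -/
noncomputable def KN (f : ℕ →*₀ ℂ) (N : ℕ) (z : ℂ) : ℂ := ∏' n, (1 + kap f N n z)

open Classical in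
/-- the majorant on all natural numbers -/
noncomputable def V (f : ℕ →*₀ ℂ) (σ : ℝ) (n : ℕ) : ℝ := if n.Prime then U f σ n else 0

lemma V_nonneg (f : ℕ →*₀ ℂ) (σ : ℝ) (n : ℕ) : 0 ≤ V f σ n := by
  unfold V; split_ifs
  · exact U_nonneg f σ n
  · exact le_rfl

lemma kap_le (f : ℕ →*₀ ℂ) (C : ℝ) (hC : Bd f C) (N n : ℕ) (σ : ℝ) (hσ : 1 / 2 < σ) (z : ℂ)
    (hz : σ ≤ z.re) : ‖kap f N n z‖ ≤ if N ≤ n then V f σ n else 0 := by
  unfold kap V
  by_cases h1 : n.Prime <;> by_cases h2 : N ≤ n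
  · rw [if_pos ⟨h1, h2⟩, if_pos h2, if_pos h1]
    exact kp_bound f C hC n h1 σ hσ z hz
  · rw [if_neg (fun h => h2 h.2), if_neg h2]; simp
  · rw [if_neg (fun h => h1 h.1), if_pos h2, if_neg h1]; simp
  · rw [if_neg (fun h => h1 h.1), if_neg h2]; simp

lemma kap_le' (f : ℕ →*₀ ℂ) (C : ℝ) (hC : Bd f C) (N n : ℕ) (σ : ℝ) (hσ : 1 / 2 < σ) (z : ℂ)
    (hz : σ ≤ z.re) : ‖kap f N n z‖ ≤ V f σ n := by
  refine (kap_le f C hC N n σ hσ z hz).trans ?_
  split_ifs
  · exact le_rfl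
  · exact V_nonneg f σ n

lemma loc_differentiable (f : ℕ →*₀ ℂ) (p : ℕ) (hp : p.Prime) : Differentiable ℂ (loc f p) := by
  have hp0 : (p : ℂ) ≠ 0 := by exact_mod_cast hp.ne_zero
  have hd : ∀ c : ℂ, Differentiable ℂ (fun z : ℂ => 1 - c * (p : ℂ) ^ (-z)) := by
    intro c z
    exact (differentiableAt_const _).sub
      ((differentiableAt_const _).mul (differentiableAt_id.neg.const_cpow (Or.inl hp0)))
  have hd' : Differentiable ℂ (fun z : ℂ => 1 - (p : ℂ) ^ (-z)) := by simpa using hd 1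
  exact (hd'.mul hd').mul ((hd _).mul (hd _))

lemma kp_differentiable (f : ℕ →*₀ ℂ) (p : ℕ) (hp : p.Prime) : Differentiable ℂ (kp f p) := by
  have hp0 : (p : ℂ) ≠ 0 := by exact_mod_cast hp.ne_zero
  have h1 : Differentiable ℂ (fun z : ℂ => 1 + (cc f p : ℂ) * (p : ℂ) ^ (-z)) := by
    intro z
    exact (differentiableAt_const _).add
      ((differentiableAt_const _).mul (differentiableAt_id.neg.const_cpow (Or.inl hp0)))
  exact h1.mul (loc_differentiable f p hp)

lemma kap_differentiable (f : ℕ →*₀ ℂ) (N n : ℕ) : Differentiable ℂ (kap f N n) := by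
  by_cases h : n.Prime ∧ N ≤ n
  · have e : kap f N n = fun z => kp f n z - 1 := by
      funext z; unfold kap; rw [if_pos h]
    rw [e]
    exact (kp_differentiable f n h.1).sub (differentiable_const _)
  · have e : kap f N n = fun _ => 0 := by
      funext z; unfold kap; rw [if_neg h]
    rw [e]
    exact differentiable_const _

lemma isOpen_re (σ : ℝ) : IsOpen {z : ℂ | σ < z.re} :=
  isOpen_lt continuous_const Complex.continuous_re

lemma KN_differentiableOn (f : ℕ →*₀ ℂ) (C : ℝ) (hC : Bd f C) (N : ℕ) (σ : ℝ) (hσ : 1 / 2 < σ)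
    (hV : Summable (V f σ)) : DifferentiableOn ℂ (KN f N) {z : ℂ | σ < z.re} := by
  have h1 := Summable.hasProdLocallyUniformlyOn_nat_one_add (f := fun n z => kap f N n z)
    (isOpen_re σ) hV (.of_forall fun n z hz => kap_le' f C hC N n σ hσ z (le_of_lt hz))
    (fun n => (kap_differentiable f N n).continuous.continuousOn)
  refine h1.differentiableOn (.of_forall fun s => ?_) (isOpen_re σ)
  have : (fun b : ℂ => ∏ i ∈ s, (1 + kap f N i b)) = fun b => ∏ i ∈ s, (1 + kap f N i b) := rfl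
  simpa [Finset.prod_fn] using DifferentiableOn.finsetProd (u := s)
    (f := fun (i : ℕ) (z : ℂ) => 1 + kap f N i z) (s := {z : ℂ | σ < z.re})
    (fun i _ => ((differentiable_const _).add (kap_differentiable f N i)).differentiableOn)

lemma kap_summable (f : ℕ →*₀ ℂ) (C : ℝ) (hC : Bd f C) (N : ℕ) (σ : ℝ) (hσ : 1 / 2 < σ)
    (hV : Summable (V f σ)) (z : ℂ) (hz : σ ≤ z.re) : Summable (fun n => ‖kap f N n z‖) :=
  Summable.of_nonneg_of_le (fun _ => norm_nonneg _) (fun n => kap_le' f C hC N n σ hσ z hz) hV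

lemma KN_tendsto (f : ℕ →*₀ ℂ) (C : ℝ) (hC : Bd f C) (N : ℕ) (σ : ℝ) (hσ : 1 / 2 < σ)
    (hV : Summable (V f σ)) (z : ℂ) (hz : σ ≤ z.re) :
    Tendsto (fun P : ℕ => ∏ n ∈ range P, (1 + kap f N n z)) atTop (𝓝 (KN f N z)) :=
  (multipliable_one_add_of_summable (kap_summable f C hC N σ hσ hV z hz)).hasProd.tendsto_prod_nat

/-- the tail -/
noncomputable def tail (f : ℕ →*₀ ℂ) (σ : ℝ) (N : ℕ) : ℝ := ∑' n, (if N ≤ n then V f σ n else 0)

lemma tail_summable (f : ℕ →*₀ ℂ) (σ : ℝ) (hV : Summable (V f σ)) (N : ℕ) :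
    Summable (fun n => if N ≤ n then V f σ n else 0) := by
  refine Summable.of_nonneg_of_le (fun n => ?_) (fun n => ?_) hV
  · split_ifs
    · exact V_nonneg f σ n
    · exact le_rfl
  · split_ifs
    · exact le_rfl
    · exact V_nonneg f σ n

lemma tail_tendsto (f : ℕ →*₀ ℂ) (σ : ℝ) (hV : Summable (V f σ)) :
    Tendsto (tail f σ) atTop (𝓝 0) := by
  have h := tendsto_tsum_of_dominated_convergence (𝓕 := atTop)
    (f := fun (N : ℕ) (n : ℕ) => if N ≤ n then V f σ n else 0) (g := fun _ => (0 : ℝ))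
    (bound := V f σ) hV (fun n => ?_) (.of_forall fun N n => ?_)
  · rw [tsum_zero] at h
    exact h
  · refine tendsto_const_nhds.congr' ?_
    filter_upwards [eventually_gt_atTop n] with N hN
    rw [if_neg (by omega)]
  · split_ifs
    · rw [Real.norm_of_nonneg (V_nonneg f σ n)]
    · simpa using V_nonneg f σ n

lemma KN_close (f : ℕ →*₀ ℂ) (C : ℝ) (hC : Bd f C) (N : ℕ) (σ : ℝ) (hσ : 1 / 2 < σ)
    (hV : Summable (V f σ)) (z : ℂ) (hz : σ ≤ z.re) :
    ‖KN f N z - 1‖ ≤ Real.exp (tail f σ N) - 1 := by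
  have h1 := (KN_tendsto f C hC N σ hσ hV z hz).sub_const 1
  refine le_of_tendsto h1.norm (.of_forall fun P => ?_)
  refine (Finset.norm_prod_one_add_sub_one_le (range P) (fun n => kap f N n z)).trans ?_
  have h2 : ∑ n ∈ range P, ‖kap f N n z‖ ≤ tail f σ N := by
    refine (Finset.sum_le_sum fun n _ => kap_le f C hC N n σ hσ z hz).trans ?_
    refine (tail_summable f σ hV N).sum_le_tsum _ (fun n _ => ?_)
    split_ifs
    · exact V_nonneg f σ n
    · exact le_rfl
  have := Real.exp_le_exp.2 h2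
  linarith

lemma KN_limit (f : ℕ →*₀ ℂ) (C : ℝ) (hC : Bd f C) (σ : ℝ) (hσ : 1 / 2 < σ)
    (hV : Summable (V f σ)) (z : ℂ) (hz : σ ≤ z.re) :
    Tendsto (fun N => ‖KN f N z‖) atTop (𝓝 1) := by
  have h1 : Tendsto (fun N => Real.exp (tail f σ N) - 1) atTop (𝓝 0) := by
    have := ((Real.continuous_exp.tendsto 0).comp (tail_tendsto f σ hV)).sub_const 1
    simpa using this
  have h2 : Tendsto (fun N => KN f N z - 1) atTop (𝓝 0) :=
    squeeze_zero_norm (fun N => KN_close f C hC N σ hσ hV z hz) h1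
  have h3 := (h2.add_const 1).norm
  simpa using h3

end Pool.Agent.Q311.KS
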