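import Pool.Agent.Q311.KS.C

/-!
# The Dirichlet series with non-negative coefficients
-/

set_option autoImplicit false

namespace Pool.Agent.Q311.KS

open Finset Complex Filter Topology
open Pool.Agent.H280R3.MO

lemma cut_limit (u : ℕ →*₀ ℂ) (z : ℂ) (hs : LSeriesSummable u z) :
    Tendsto (fun P : ℕ => LSeries (cut P u) z) atTop (𝓝 1) := by
  have h := tendsto_tsum_of_dominated_convergence (𝓕 := atTop)
    (f := fun (P : ℕ) (n : ℕ) => LSeries.term (cut P u) z n)
    (g := fun n => if n = 1 then (1 : ℂ) else 0)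
    (bound := fun n => ‖LSeries.term u z n‖) hs.norm (fun n => ?_) (.of_forall fun P n => ?_)
  · rw [tsum_ite_eq] at h
    exact h
  · rcases Nat.lt_or_ge 1 n with h1 | h1
    · rw [if_neg (by omega)]
      refine tendsto_const_nhds.congr' ?_
      filter_upwards [eventually_gt_atTop n] with P hP
      rw [LSeries.term_of_ne_zero (by omega), cut_not, zero_div]
      intro hR
      have h2 := hR n.minFac (Nat.minFac_prime (by omega)) (Nat.minFac_dvd n)
      have h3 := Nat.minFac_le (n := n) (by omega)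
      omega
    · interval_cases n
      · simp
      · rw [if_pos rfl]
        refine tendsto_const_nhds.congr fun P => ?_
        rw [LSeries.term_of_ne_zero one_ne_zero, cut_of _ _ _ (Rg_one P)]
        simp
  · exact LSeries.norm_term_le z (cut_norm_le P u n)

lemma HN_limit (f : ℕ →*₀ ℂ) (C : ℝ) (hC : Bd f C) (z : ℂ) (hz : 3 / 2 < z.re) :
    Tendsto (fun P : ℕ => HN f P z) atTop (𝓝 1) := by
  have h1 : LSeriesSummable u1 z := u1_LSeriesSummable z (by linarith)
  have h2 : LSeriesSummable (gh f) z := by rw [gh_eq]; exact cf_LSeriesSummable f C hC z hz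
  have h3 : LSeriesSummable (gh (bar f)) z := by
    rw [gh_eq]; exact cf_LSeriesSummable (bar f) C (Bd_bar f C hC) z hz
  have key : ∀ P : ℕ, HN f P z = (LSeries (cut P u1) z * LSeries (cut P u1) z) *
      (LSeries (cut P (gh f)) z * LSeries (cut P (gh (bar f))) z) := by
    intro P
    have s1 : LSeriesSummable (ar (cut P u1)) z := by
      rw [coe_ar]; exact cut_LSeriesSummable P u1 z h1
    have s2 : LSeriesSummable (ar (cut P (gh f))) z := by
      rw [coe_ar]; exact cut_LSeriesSummable P _ z h2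
    have s3 : LSeriesSummable (ar (cut P (gh (bar f)))) z := by
      rw [coe_ar]; exact cut_LSeriesSummable P _ z h3
    rw [HN_eq_LSeries f C hC P z hz]
    unfold cN cv
    rw [ArithmeticFunction.LSeries_mul' (ArithmeticFunction.LSeriesSummable_mul s1 s1)
      (ArithmeticFunction.LSeriesSummable_mul s2 s3), ArithmeticFunction.LSeries_mul' s1 s1,
      ArithmeticFunction.LSeries_mul' s2 s3, coe_ar, coe_ar, coe_ar]
  simp_rw [key]
  have := ((cut_limit u1 z h1).mul (cut_limit u1 z h1)).mul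
    ((cut_limit _ z h2).mul (cut_limit _ z h3))
  simpa using this

open Classical in
/-- the term of the main product -/
noncomputable def bt (f : ℕ →*₀ ℂ) (N n : ℕ) (z : ℂ) : ℂ :=
  if n.Prime ∧ N ≤ n then (cc f n : ℂ) * (n : ℂ) ^ (-z) else 0

open Classical in
lemma PN_split (f : ℕ →*₀ ℂ) (N : ℕ) (z : ℂ) (P : ℕ) (hP : N ≤ P) :
    PN f P z = PN f N z * ∏ n ∈ range P, (if n.Prime ∧ N ≤ n then loc f n z else 1) := by
  induction P, hP using Nat.le_induction with
  | base =>
    rw [Finset.prod_eq_one, mul_one]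
    intro n hn
    rw [if_neg]
    intro h
    have := Finset.mem_range.1 hn
    omega
  | succ P hP ih =>
    rw [Finset.prod_range_succ, ← mul_assoc, ← ih]
    unfold PN
    rw [Nat.primesBelow_succ]
    split_ifs with h1 h2 h3
    · rw [Finset.prod_insert (by simp [Nat.primesBelow])]
      unfold loc
      ring
    · exact absurd ⟨h1, hP⟩ h2
    · exact absurd h3.1 h1
    · rw [mul_one]

lemma rel (f : ℕ →*₀ ℂ) (N : ℕ) (z : ℂ) (P : ℕ) (hP : N ≤ P) :
    HN f N z * ∏ n ∈ range P, (1 + kap f N n z) = HN f P z * ∏ n ∈ range P, (1 + bt f N n z) := by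
  classical
  unfold HN
  rw [PN_split f N z P hP]
  have : ∏ n ∈ range P, (1 + kap f N n z) =
      (∏ n ∈ range P, (if n.Prime ∧ N ≤ n then loc f n z else 1)) *
        ∏ n ∈ range P, (1 + bt f N n z) := by
    rw [← Finset.prod_mul_distrib]
    refine Finset.prod_congr rfl fun n _ => ?_
    unfold kap bt
    split_ifs with h
    · unfold kp
      ring
    · ring
  rw [this]
  ring

open Classical in
/-- the coefficients -/
noncomputable def bb (f : ℕ →*₀ ℂ) (N n : ℕ) : ℝ :=
  if Squarefree n then ∏ p ∈ n.primeFactors, (if N ≤ p then cc f p else 0) else 0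

lemma bb_nonneg (f : ℕ →*₀ ℂ) (N n : ℕ) : 0 ≤ bb f N n := by
  unfold bb
  split_ifs
  · refine Finset.prod_nonneg fun p _ => ?_
    split_ifs
    · exact cc_nonneg f p
    · exact le_rfl
  · exact le_rfl

lemma bb_one (f : ℕ →*₀ ℂ) (N : ℕ) : bb f N 1 = 1 := by
  unfold bb
  simp

lemma bb_mul (f : ℕ →*₀ ℂ) (N m n : ℕ) (h : m.Coprime n) :
    bb f N (m * n) = bb f N m * bb f N n := by
  unfold bb
  by_cases h1 : Squarefree m <;> by_cases h2 : Squarefree n
  · rw [if_pos h1, if_pos h2, if_pos ((Nat.squarefree_mul h).2 ⟨h1, h2⟩), h.primeFactors_mul,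
      Finset.prod_union h.disjoint_primeFactors]
  · rw [if_neg (fun h3 => h2 ((Nat.squarefree_mul h).1 h3).2), if_neg h2, mul_zero]
  · rw [if_neg (fun h3 => h1 ((Nat.squarefree_mul h).1 h3).1), if_neg h1, zero_mul]
  · rw [if_neg (fun h3 => h1 ((Nat.squarefree_mul h).1 h3).1), if_neg h1, zero_mul]

lemma bb_prime (f : ℕ →*₀ ℂ) (N p : ℕ) (hp : p.Prime) :
    bb f N p = if N ≤ p then cc f p else 0 := by
  unfold bb
  rw [if_pos hp.squarefree, hp.primeFactors, Finset.prod_singleton]

lemma bb_pow (f : ℕ →*₀ ℂ) (N p e : ℕ) (hp : p.Prime) (he : 2 ≤ e) : bb f N (p ^ e) = 0 := by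
  unfold bb
  rw [if_neg]
  intro h
  have := (Nat.squarefree_pow_iff hp.ne_one (by omega)).1 h
  omega

lemma cc_small (f : ℕ →*₀ ℂ) (C : ℝ) (hC : Bd f C) (p : ℕ) (hp : p.Prime) (h : 256 ≤ p) :
    cc f p ≤ (p : ℝ) ^ (3 / 4 : ℝ) := by
  have hp0 : (0 : ℝ) < p := by exact_mod_cast hp.pos
  have h1 := cc_le f p
  have h2 := gh_le f C hC p hp
  set s := (p : ℝ) ^ (1 / 4 : ℝ) with hs
  have hs0 : 0 ≤ s := Real.rpow_nonneg hp0.le _
  have hs4 : 4 ≤ s := by
    have h3 : (256 : ℝ) ≤ p := by exact_mod_cast h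
    calc (4 : ℝ) = (256 : ℝ) ^ (1 / 4 : ℝ) := by
          rw [show (256 : ℝ) = 4 ^ (4 : ℝ) by norm_num, ← Real.rpow_mul (by norm_num)]
          norm_num
      _ ≤ s := Real.rpow_le_rpow (by norm_num) h3 (by norm_num)
  have e1 : Real.sqrt p = s ^ 2 := by
    rw [Real.sqrt_eq_rpow, hs, ← Real.rpow_natCast, ← Real.rpow_mul hp0.le]; norm_num
  have e2 : (p : ℝ) ^ (3 / 4 : ℝ) = s ^ 3 := by
    rw [hs, ← Real.rpow_natCast, ← Real.rpow_mul hp0.le]; norm_num
  rw [e2]
  rw [e1] at h2
  nlinarith [mul_nonneg (sq_nonneg s) (by linarith : 0 ≤ s - 4)]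

lemma bb_le (f : ℕ →*₀ ℂ) (C : ℝ) (hC : Bd f C) (N : ℕ) (hN : 256 ≤ N) (n : ℕ) :
    bb f N n ≤ (n : ℝ) ^ (3 / 4 : ℝ) := by
  unfold bb
  split_ifs with h
  · calc ∏ p ∈ n.primeFactors, (if N ≤ p then cc f p else 0)
        ≤ ∏ p ∈ n.primeFactors, (p : ℝ) ^ (3 / 4 : ℝ) := by
          refine Finset.prod_le_prod (fun p _ => ?_) (fun p hp => ?_)
          · split_ifs
            · exact cc_nonneg f p
            · exact le_rfl
          · split_ifs with h1
            · exact cc_small f C hC p (Nat.prime_of_mem_primeFactors hp) (hN.trans h1)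
            · positivity
      _ = (∏ p ∈ n.primeFactors, (p : ℝ)) ^ (3 / 4 : ℝ) := by
          rw [Real.finsetProd_rpow _ _ (fun p _ => by positivity)]
      _ = (n : ℝ) ^ (3 / 4 : ℝ) := by
          rw [← Nat.cast_prod, Nat.prod_primeFactors_of_squarefree h]
  · positivity

/-- the coefficients, complex -/
noncomputable def bC (f : ℕ →*₀ ℂ) (N n : ℕ) : ℂ := (bb f N n : ℂ)

lemma bC_summable (f : ℕ →*₀ ℂ) (C : ℝ) (hC : Bd f C) (N : ℕ) (hN : 256 ≤ N) (z : ℂ)
    (hz : 7 / 4 < z.re) : LSeriesSummable (bC f N) z := by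
  refine LSeriesSummable_of_le_const_mul_rpow (x := 7 / 4) hz ⟨1, fun n hn => ?_⟩
  unfold bC
  rw [Complex.norm_real, Real.norm_of_nonneg (bb_nonneg f N n), one_mul]
  have := bb_le f C hC N hN n
  norm_num at this ⊢
  exact this

lemma euler (f : ℕ →*₀ ℂ) (C : ℝ) (hC : Bd f C) (N : ℕ) (hN : 256 ≤ N) (z : ℂ)
    (hz : 7 / 4 < z.re) :
    Tendsto (fun P : ℕ => ∏ n ∈ range P, (1 + bt f N n z)) atTop (𝓝 (LSeries (bC f N) z)) := by
  classical
  have hs := bC_summable f C hC N hN z hz
  have h := EulerProduct.eulerProduct (f := fun n => LSeries.term (bC f N) z n) (by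
    simp [bC, bb_one]) (by
    intro m n hmn
    rcases Nat.eq_zero_or_pos m with rfl | hm
    · simp
    rcases Nat.eq_zero_or_pos n with rfl | hn
    · simp
    rw [LSeries.term_of_ne_zero (by positivity), LSeries.term_of_ne_zero hm.ne',
      LSeries.term_of_ne_zero hn.ne', bC, bb_mul f N m n hmn, Nat.cast_mul,
      Complex.natCast_mul_natCast_cpow, bC, bC]
    push_cast
    field_simp) hs.norm (by simp)
  refine h.congr fun P => ?_
  rw [Nat.primesBelow, Finset.prod_filter]
  refine Finset.prod_congr rfl fun n _ => ?_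
  unfold bt
  by_cases hn : n.Prime
  · rw [if_pos hn, tsum_eq_sum (s := Finset.range 2)]
    · rw [Finset.sum_range_succ, Finset.sum_range_one, pow_zero, pow_one,
        LSeries.term_of_ne_zero one_ne_zero, LSeries.term_of_ne_zero hn.ne_zero, bC, bC, bb_one,
        bb_prime f N n hn]
      by_cases hNn : N ≤ n
      · rw [if_pos hNn, if_pos ⟨hn, hNn⟩, Complex.cpow_neg]
        simp [div_eq_mul_inv]
      · rw [if_neg hNn, if_neg (fun h => hNn h.2)]
        simp
    · intro e he
      have he2 : 2 ≤ e := by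
        by_contra hcon
        exact he (Finset.mem_range.2 (by omega))
      rw [LSeries.term_of_ne_zero (pow_ne_zero _ hn.ne_zero), bC, bb_pow f N n e hn he2]
      simp
  · rw [if_neg hn, if_neg (fun h => hn h.1), add_zero]

lemma F_eq (f : ℕ →*₀ ℂ) (C : ℝ) (hC : Bd f C) (N : ℕ) (hN : 256 ≤ N) (σ : ℝ) (hσ : 1 / 2 < σ)
    (hV : Summable (V f σ)) (z : ℂ) (hz : 7 / 4 < z.re) (hz' : σ ≤ z.re) :
    HN f N z * KN f N z = LSeries (bC f N) z := by
  have t1 := (KN_tendsto f C hC N σ hσ hV z hz').const_mul (HN f N z)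
  have t2 := (HN_limit f C hC z (by linarith)).mul (euler f C hC N hN z hz)
  rw [one_mul] at t2
  refine tendsto_nhds_unique t1 (t2.congr' ?_)
  filter_upwards [eventually_ge_atTop N] with P hP
  exact (rel f N z P hP).symm

end Pool.Agent.Q311.KS
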