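import Pool.Agent.Q311.KS.D

/-!
# Landau's lemma
-/

set_option autoImplicit false

namespace Pool.Agent.Q311.KS

open Finset Complex Filter Topology
open Pool.Agent.H280R3.MO
open scoped ComplexOrder

/-- the function with non-negative coefficients -/
noncomputable def FN (f : ℕ →*₀ ℂ) (N : ℕ) (z : ℂ) : ℂ := HN f N z * KN f N z

lemma FN_differentiableOn (f : ℕ →*₀ ℂ) (C : ℝ) (hC : Bd f C) (N : ℕ) (σ : ℝ) (hσ : 1 / 2 < σ)
    (hV : Summable (V f σ)) : DifferentiableOn ℂ (FN f N) {z : ℂ | σ < z.re} := by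
  refine DifferentiableOn.mul ((HN_differentiableOn f C hC N).mono ?_)
    (KN_differentiableOn f C hC N σ hσ hV)
  intro z hz
  exact lt_trans hσ hz

lemma landau' (f : ℕ →*₀ ℂ) (C : ℝ) (hC : Bd f C) (N : ℕ) (hN : 256 ≤ N) (σ₁ : ℝ)
    (h0 : 1 / 2 < σ₁) (hV : Summable (V f σ₁)) (σ : ℝ) (h1 : σ₁ < σ) (h2 : σ < 7 / 4) :
    1 ≤ ‖FN f N σ‖ := by
  set a : ℕ → ℂ := fun n => if n = 1 then 0 else bC f N n with ha
  have hbC : ∀ n, (0 : ℂ) ≤ bC f N n := by
    intro n
    unfold bC
    exact_mod_cast bb_nonneg f N n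
  have ha0 : 0 ≤ a := by
    intro n
    show (0 : ℂ) ≤ (if n = 1 then 0 else bC f N n)
    split_ifs
    · exact le_rfl
    · exact hbC n
  have hsum : ∀ z : ℂ, 7 / 4 < z.re → LSeriesSummable a z := by
    intro z hz
    refine Summable.of_norm_bounded (bC_summable f C hC N hN z hz).norm (fun n => ?_)
    refine LSeries.norm_term_le z ?_
    show ‖(if n = 1 then 0 else bC f N n)‖ ≤ _
    split_ifs
    · simp
    · exact le_rfl
  have hLa : ∀ z : ℂ, 7 / 4 < z.re → LSeries a z = FN f N z - 1 := by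
    intro z hz
    unfold FN
    rw [F_eq f C hC N hN σ₁ h0 hV z hz (by linarith)]
    have h3 := (bC_summable f C hC N hN z hz).tsum_eq_add_tsum_ite 1
    unfold LSeries
    rw [h3]
    rw [LSeries.term_of_ne_zero one_ne_zero]
    have e1 : bC f N 1 = 1 := by unfold bC; rw [bb_one]; simp
    rw [e1]
    simp only [Nat.cast_one, one_cpow, div_one, add_sub_cancel_left]
    refine tsum_congr fun n => ?_
    rcases Nat.eq_zero_or_pos n with rfl | hn
    · simp
    rw [LSeries.term_of_ne_zero hn.ne']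
    by_cases h : n = 1
    · simp [ha, h]
    · simp only [ha, h, if_false]
      rw [LSeries.term_of_ne_zero hn.ne']
  set φ : ℂ → ℂ := fun w => FN f N (-w) - 1 with hφ
  have hball : ∀ w ∈ Metric.ball (-2 : ℂ) (2 - σ₁), -w ∈ {z : ℂ | σ₁ < z.re} := by
    intro w hw
    rw [Metric.mem_ball, Complex.dist_eq] at hw
    have h3 := (abs_le.1 ((Complex.abs_re_le_norm (w - (-2))))).2
    have h4 : (w - (-2)).re = w.re + 2 := by simp
    show σ₁ < (-w).re
    rw [Complex.neg_re]
    rw [h4] at h3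
    linarith
  have hφd : DifferentiableOn ℂ φ (Metric.ball (-2 : ℂ) (2 - σ₁)) := by
    refine DifferentiableOn.sub ?_ (differentiableOn_const _)
    exact (FN_differentiableOn f C hC N σ₁ h0 hV).comp (differentiableOn_id.neg) hball
  have hder : ∀ n, 0 ≤ iteratedDeriv n φ (-2 : ℂ) := by
    intro n
    have e1 : φ = fun w => (fun z => FN f N z - 1) (-w) := rfl
    rw [e1, iteratedDeriv_comp_neg n (fun z => FN f N z - 1) (-2), neg_neg]
    have hopen : IsOpen {z : ℂ | 7 / 4 < z.re} := isOpen_lt continuous_const Complex.continuous_re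
    have heq : Set.EqOn (fun z => FN f N z - 1) (LSeries a) {z : ℂ | 7 / 4 < z.re} :=
      fun z hz => (hLa z hz).symm
    have h2mem : (2 : ℂ) ∈ {z : ℂ | 7 / 4 < z.re} := by
      show 7 / 4 < (2 : ℂ).re
      norm_num
    rw [heq.iteratedDeriv_of_isOpen hopen n h2mem, smul_eq_mul]
    have habs : LSeries.abscissaOfAbsConv a < ((2 : ℝ) : EReal) := by
      refine lt_of_le_of_lt (LSeries.abscissaOfAbsConv_le_of_forall_lt_LSeriesSummable (x := 7 / 4)
        (fun y hy => hsum y (by simpa using hy))) ?_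
      exact_mod_cast (by norm_num : (7 / 4 : ℝ) < 2)
    have := LSeries.iteratedDeriv_alternating ha0 habs n
    simpa using this
  have hres := hφd.nonneg_of_iteratedDeriv_nonneg hder (z := (-(σ : ℂ))) ?_ ?_
  · simp only [hφ, neg_neg] at hres
    have h3 : (1 : ℝ) ≤ (FN f N σ).re := (Complex.le_def.1 (sub_nonneg.1 hres)).1
    exact h3.trans (Complex.re_le_norm _)
  · rw [Complex.le_def]
    constructor
    · simp; linarith
    · simp
  · rw [Metric.mem_ball, Complex.dist_eq]
    have : -(σ : ℂ) - (-2) = ((2 - σ : ℝ) : ℂ) := by push_cast; ring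
    rw [this, Complex.norm_real, Real.norm_of_nonneg (by linarith)]
    linarith

end Pool.Agent.Q311.KS
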