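import Pool.Agent.Q311.KS.E

/-!
# The inequality for the zeta function
-/

set_option autoImplicit false

namespace Pool.Agent.Q311.KS

open Finset Complex Filter Topology
open Pool.Agent.H280R3.MO
open scoped ComplexOrder

lemma base_le (f : ℕ →*₀ ℂ) (p : ℕ) (hp : p.Prime) :
    ‖1 - gh f p * (((1 / Real.sqrt p : ℝ)) : ℂ)‖ ≤ (1 + 1 / Real.sqrt p) * Real.exp (dd f p) := by
  have hp0 : (0 : ℝ) < p := by exact_mod_cast hp.pos
  set s := Real.sqrt p with hs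
  have hs0 : 0 < s := Real.sqrt_pos.2 hp0
  have hss : s * s = p := Real.mul_self_sqrt hp0.le
  have e : gh f p * ((1 / s : ℝ) : ℂ) = (s : ℂ) * f p := by
    rw [gh_apply]
    have h1 : ((p : ℕ) : ℂ) = (s : ℂ) * (s : ℂ) := by
      rw [← Complex.ofReal_mul, hss]; simp
    rw [h1]
    have h2 : (s : ℂ) ≠ 0 := by exact_mod_cast hs0.ne'
    push_cast
    field_simp
  rw [e]
  set R := ‖1 - (s : ℂ) * f p‖ / (1 + 1 / s) with hR
  have hR0 : 0 ≤ R := by positivity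
  have h3 : R ≤ Real.exp (dd f p) := by
    unfold dd
    rw [← hs, ← hR]
    rcases hR0.eq_or_lt with h | h
    · rw [← h]; positivity
    · calc R = Real.exp (Real.log R) := (Real.exp_log h).symm
        _ ≤ _ := Real.exp_le_exp.2 (le_max_right _ _)
  rw [hR, div_le_iff₀ (by positivity)] at h3
  linarith

lemma factor_le' (f : ℕ →*₀ ℂ) (p : ℕ) (hp : p.Prime) (σ : ℝ) (h1 : 1 / 2 < σ) :
    ‖1 - gh f p * (((p : ℝ) ^ (-σ) : ℝ) : ℂ)‖ ≤ (1 + (p : ℝ) ^ (-σ)) * Real.exp (dd f p) := by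
  have hp0 : (0 : ℝ) < p := by exact_mod_cast hp.pos
  have hp1 : (1 : ℝ) ≤ p := by exact_mod_cast hp.one_le
  refine mono_t _ _ (1 / Real.sqrt p) _ (Real.rpow_pos_of_pos hp0 _) ?_ ?_ (base_le f p hp)
  · rw [Real.sqrt_eq_rpow, one_div, ← Real.rpow_neg hp0.le]
    exact Real.rpow_le_rpow_of_exponent_le hp1 (by linarith)
  · exact Real.one_le_exp Real.posLog_nonneg

lemma factor_bar (f : ℕ →*₀ ℂ) (p : ℕ) (t : ℝ) :
    ‖1 - gh (bar f) p * (t : ℂ)‖ = ‖1 - gh f p * (t : ℂ)‖ := by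
  rw [bar_eq]
  have : 1 - (starRingEnd ℂ) (gh f p) * (t : ℂ) = (starRingEnd ℂ) (1 - gh f p * (t : ℂ)) := by
    simp
  rw [this, RCLike.norm_conj]

open Classical in
/-- the defect on all natural numbers -/
noncomputable def W (f : ℕ → ℂ) (n : ℕ) : ℝ := if n.Prime then dd f n else 0

lemma W_nonneg (f : ℕ → ℂ) (n : ℕ) : 0 ≤ W f n := by
  unfold W; split_ifs
  · exact Real.posLog_nonneg
  · exact le_rfl

lemma W_summable (f : ℕ → ℂ) (hE : Summable (fun p : Nat.Primes => dd f p)) : Summable (W f) := by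
  classical
  have := summable_ind (dd f) hE
  refine this.congr fun n => ?_
  unfold W
  congr

/-- the ratio at `t` -/
noncomputable def Rr (f : ℕ →*₀ ℂ) (p : ℕ) (t : ℝ) : ℝ := ‖1 - gh f p * (t : ℂ)‖ / (1 + t)

/-- the tail of the defects -/
noncomputable def tW (f : ℕ → ℂ) (M : ℕ) : ℝ := ∑' n, (if M ≤ n then W f n else 0)

lemma tW_summable (f : ℕ → ℂ) (hE : Summable (W f)) (M : ℕ) :
    Summable (fun n => if M ≤ n then W f n else 0) := by
  refine Summable.of_nonneg_of_le (fun n => ?_) (fun n => ?_) hE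
  · split_ifs
    · exact W_nonneg f n
    · exact le_rfl
  · split_ifs
    · exact le_rfl
    · exact W_nonneg f n

lemma PN_norm_le' (f : ℕ →*₀ ℂ) (hE : Summable (W f)) (M N : ℕ) (hMN : M ≤ N) (σ : ℝ)
    (h1 : 1 / 2 < σ) :
    ‖PN f N σ‖ ≤ (∏ p ∈ N.primesBelow, (1 - (p : ℝ) ^ (-(2 * σ)))) ^ 2 *
      ((∏ p ∈ M.primesBelow, Rr f p ((p : ℝ) ^ (-σ))) * Real.exp (tW f M)) ^ 2 := by
  classical
  unfold PN
  have hfac : ∀ p ∈ N.primesBelow, 0 ≤ 1 - (p : ℝ) ^ (-(2 * σ)) := by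
    intro p hp'
    have hp := Nat.prime_of_mem_primesBelow hp'
    have : (p : ℝ) ^ (-(2 * σ)) < 1 :=
      Real.rpow_lt_one_of_one_lt_of_neg (by exact_mod_cast hp.one_lt) (by linarith)
    linarith
  have hRr : ∀ p : ℕ, 0 ≤ Rr f p ((p : ℝ) ^ (-σ)) := by
    intro p; unfold Rr; positivity
  have hprod : ∏ p ∈ N.primesBelow, (if p < M then Rr f p ((p : ℝ) ^ (-σ)) else Real.exp (dd f p)) ≤
      (∏ p ∈ M.primesBelow, Rr f p ((p : ℝ) ^ (-σ))) * Real.exp (tW f M) := by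
    rw [Finset.prod_ite]
    have e1 : N.primesBelow.filter (fun p => p < M) = M.primesBelow := by
      ext p
      simp only [Nat.primesBelow, Finset.mem_filter, Finset.mem_range]
      constructor
      · rintro ⟨⟨_, h2⟩, h3⟩; exact ⟨h3, h2⟩
      · rintro ⟨h2, h3⟩; exact ⟨⟨by omega, h3⟩, h2⟩
    rw [e1]
    refine mul_le_mul_of_nonneg_left ?_ (Finset.prod_nonneg fun p _ => hRr p)
    rw [← Real.exp_sum, Real.exp_le_exp]
    have h2 : ∑ p ∈ N.primesBelow.filter (fun p => ¬ p < M), dd f p =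
        ∑ p ∈ N.primesBelow.filter (fun p => ¬ p < M), (if M ≤ p then W f p else 0) := by
      refine Finset.sum_congr rfl fun p hp => ?_
      rw [Finset.mem_filter] at hp
      rw [if_pos (not_lt.1 hp.2)]
      unfold W
      rw [if_pos (Nat.prime_of_mem_primesBelow hp.1)]
    rw [h2]
    refine (tW_summable f hE M).sum_le_tsum _ (fun n _ => ?_)
    split_ifs
    · exact W_nonneg f n
    · exact le_rfl
  have hX0 : 0 ≤ ∏ p ∈ N.primesBelow, (if p < M then Rr f p ((p : ℝ) ^ (-σ)) else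
      Real.exp (dd f p)) := by
    refine Finset.prod_nonneg fun p _ => ?_
    split_ifs
    · exact hRr p
    · positivity
  refine le_trans ?_ (mul_le_mul_of_nonneg_left (pow_le_pow_left₀ hX0 hprod 2) (by positivity))
  rw [norm_prod, ← Finset.prod_pow, ← Finset.prod_pow, ← Finset.prod_mul_distrib]
  refine Finset.prod_le_prod (fun p _ => norm_nonneg _) (fun p hp' => ?_)
  have hp := Nat.prime_of_mem_primesBelow hp'
  have hp0 : (0 : ℝ) < p := by exact_mod_cast hp.pos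
  have hX : 0 < (p : ℝ) ^ (-σ) := Real.rpow_pos_of_pos hp0 _
  have hX1 : (p : ℝ) ^ (-σ) < 1 :=
    Real.rpow_lt_one_of_one_lt_of_neg (by exact_mod_cast hp.one_lt) (by linarith)
  have e : (p : ℂ) ^ (-(σ : ℂ)) = (((p : ℝ) ^ (-σ) : ℝ) : ℂ) := by
    rw [Complex.ofReal_cpow hp0.le]
    push_cast
    rfl
  rw [e]
  have n1 : ‖1 - (((p : ℝ) ^ (-σ) : ℝ) : ℂ)‖ = 1 - (p : ℝ) ^ (-σ) := by
    rw [← Complex.ofReal_one, ← Complex.ofReal_sub, Complex.norm_real,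
      Real.norm_of_nonneg (by linarith)]
  have n2 : ‖1 - gh f p * (((p : ℝ) ^ (-σ) : ℝ) : ℂ)‖ ≤ (1 + (p : ℝ) ^ (-σ)) *
      (if p < M then Rr f p ((p : ℝ) ^ (-σ)) else Real.exp (dd f p)) := by
    split_ifs
    · unfold Rr
      rw [mul_div_cancel₀ _ (by positivity)]
    · exact factor_le' f p hp σ h1
  have e2 : (p : ℝ) ^ (-(2 * σ)) = (p : ℝ) ^ (-σ) * (p : ℝ) ^ (-σ) := by
    rw [← Real.rpow_add hp0]
    congr 1
    ring
  set X := (if p < M then Rr f p ((p : ℝ) ^ (-σ)) else Real.exp (dd f p)) with hXd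
  rw [norm_mul, norm_mul, norm_mul, n1, e2, factor_bar]
  have n4 : 0 ≤ 1 - (p : ℝ) ^ (-σ) := by linarith
  have hM : 0 ≤ X := by
    rw [hXd]; split_ifs
    · exact hRr p
    · positivity
  calc (1 - (p : ℝ) ^ (-σ)) * (1 - (p : ℝ) ^ (-σ)) *
        (‖1 - gh f p * (((p : ℝ) ^ (-σ) : ℝ) : ℂ)‖ * ‖1 - gh f p * (((p : ℝ) ^ (-σ) : ℝ) : ℂ)‖)
      ≤ (1 - (p : ℝ) ^ (-σ)) * (1 - (p : ℝ) ^ (-σ)) *
        (((1 + (p : ℝ) ^ (-σ)) * X) * ((1 + (p : ℝ) ^ (-σ)) * X)) := by gcongr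
    _ = _ := by ring

lemma zeta_sq_le' (f : ℕ →*₀ ℂ) (C : ℝ) (hC : Bd f C) (hA : HA f)
    (hE : Summable (fun p : Nat.Primes => dd f p)) (M : ℕ) (σ : ℝ)
    (h1 : 1 / 2 < σ) (h2 : σ < 7 / 4) :
    ‖riemannZeta (2 * σ)‖ ^ 2 ≤
      ‖Zf f σ‖ * ‖Zf (bar f) σ‖ *
        ((∏ p ∈ M.primesBelow, Rr f p ((p : ℝ) ^ (-σ))) * Real.exp (tW f M)) ^ 2 := by
  have hW := W_summable f hE
  set σ₁ := (σ + 1 / 2) / 2 with hσ₁
  have h10 : 1 / 2 < σ₁ := by rw [hσ₁]; linarith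
  have h11 : σ₁ < σ := by rw [hσ₁]; linarith
  have hV : Summable (V f σ₁) := by
    classical
    refine (U_summable f C hC hA hE σ₁ h10).congr fun n => ?_
    unfold V
    congr
  set D := (∏ p ∈ M.primesBelow, Rr f p ((p : ℝ) ^ (-σ))) * Real.exp (tW f M) with hD
  set Y := ‖Zf f σ‖ * ‖Zf (bar f) σ‖ * D ^ 2 with hY
  have hlim := (riemannZeta_eulerProduct (s := 2 * (σ : ℂ)) (by simp; linarith)).norm.pow 2
  have hK := (KN_limit f C hC σ₁ h10 hV (σ : ℂ) (by simpa using h11.le)).const_mul Y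
  rw [mul_one] at hK
  refine le_of_tendsto_of_tendsto hlim hK ?_
  filter_upwards [eventually_ge_atTop 256, eventually_ge_atTop M] with N hN hMN
  have hn := landau' f C hC N hN σ₁ h10 hV σ h11 h2
  unfold FN HN at hn
  rw [norm_mul, norm_mul, norm_mul] at hn
  have hP := PN_norm_le' f hW M N hMN σ h1
  rw [← hD] at hP
  set Q : ℝ := ∏ p ∈ N.primesBelow, (1 - (p : ℝ) ^ (-(2 * σ))) with hQ
  have hfac : ∀ p ∈ N.primesBelow, 0 < 1 - (p : ℝ) ^ (-(2 * σ)) := by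
    intro p hp'
    have hp := Nat.prime_of_mem_primesBelow hp'
    have : (p : ℝ) ^ (-(2 * σ)) < 1 :=
      Real.rpow_lt_one_of_one_lt_of_neg (by exact_mod_cast hp.one_lt) (by linarith)
    linarith
  have hQ0 : 0 < Q := Finset.prod_pos hfac
  have e : ‖∏ p ∈ N.primesBelow, (1 - (p : ℂ) ^ (-(2 * (σ : ℂ))))⁻¹‖ = Q⁻¹ := by
    rw [norm_prod, hQ, ← Finset.prod_inv_distrib]
    refine Finset.prod_congr rfl fun p hp' => ?_
    have hp := Nat.prime_of_mem_primesBelow hp'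
    have hp0 : (0 : ℝ) < p := by exact_mod_cast hp.pos
    have e1 : (p : ℂ) ^ (-(2 * (σ : ℂ))) = (((p : ℝ) ^ (-(2 * σ)) : ℝ) : ℂ) := by
      rw [Complex.ofReal_cpow hp0.le]
      push_cast
      rfl
    rw [e1, norm_inv, ← Complex.ofReal_one, ← Complex.ofReal_sub, Complex.norm_real,
      Real.norm_of_nonneg (hfac p hp').le]
  rw [e, inv_pow]
  have h4 : 1 ≤ Y * ‖KN f N σ‖ * Q ^ 2 := by
    refine hn.trans ?_
    calc ‖Zf f σ‖ * ‖Zf (bar f) σ‖ * ‖PN f N σ‖ * ‖KN f N σ‖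
        ≤ ‖Zf f σ‖ * ‖Zf (bar f) σ‖ * (Q ^ 2 * D ^ 2) * ‖KN f N σ‖ := by
          gcongr
      _ = Y * ‖KN f N σ‖ * Q ^ 2 := by rw [hY]; ring
  rw [inv_le_iff_one_le_mul₀ (by positivity)]
  exact h4

end Pool.Agent.Q311.KS
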