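import Pool.Agent.Q311.KS.F

/-!
# The conclusion
-/

set_option autoImplicit false

namespace Pool.Agent.Q311.KS

open Finset Complex Filter Topology Asymptotics
open Pool.Agent.H280R3.MO
open scoped ComplexOrder

/-- the quantitative form: if `‖S f N‖ ≤ c N ^ (-1/2)` for large `N`, then `(2σ - 1) ‖G f σ‖` is at most
`c + o(1)` -/
lemma G_quant (f : ℕ → ℂ) (C : ℝ) (hC : Bd f C) (c : ℝ) (hc : 0 < c)
    (h2 : ∀ᶠ N : ℕ in atTop, ‖S f N‖ ≤ c * (N : ℝ) ^ (-(1 / 2) : ℝ)) :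
    ∃ m : ℝ → ℝ, Tendsto m (𝓝[>] (1 / 2)) (𝓝 c) ∧
      ∀ᶠ σ : ℝ in 𝓝[>] (1 / 2), (2 * σ - 1) * ‖G f σ‖ ≤ m σ := by
  obtain ⟨N0, hN0⟩ := eventually_atTop.1 h2
  set T : ℝ → ℝ := fun a => ∑' n : ℕ, 1 / (n : ℝ) ^ a with hT
  have hTt : Tendsto (fun σ : ℝ => (σ - 1 / 2) * T (1 / 2 + σ)) (𝓝[>] (1 / 2)) (𝓝 1) := by
    have hcomp : Tendsto (fun σ : ℝ => 1 / 2 + σ) (𝓝[>] (1 / 2)) (𝓝[>] 1) := by
      refine tendsto_nhdsWithin_iff.2 ⟨?_, ?_⟩
      · have : Tendsto (fun σ : ℝ => 1 / 2 + σ) (𝓝 (1 / 2)) (𝓝 (1 / 2 + 1 / 2)) :=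
          (continuous_const.add continuous_id).tendsto _
        norm_num at this
        exact this.mono_left nhdsWithin_le_nhds
      · filter_upwards [self_mem_nhdsWithin] with σ hσ
        have : 1 / 2 < σ := hσ
        show 1 < 1 / 2 + σ
        linarith
    refine (tendsto_sub_mul_tsum_nat_rpow.comp hcomp).congr fun σ => ?_
    simp only [Function.comp, hT]
    congr 1
    ring
  have key : ∀ σ : ℝ, 1 / 2 < σ → σ < 1 →
      ‖G f σ‖ ≤ (1 / 2) * (c * T (1 / 2 + σ) + N0 * C) := by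
    intro σ hσ1 hσ2
    have hTs : HasSum (fun n : ℕ => ((n + 1 : ℕ) : ℝ) ^ (-(1 / 2 + σ))) (T (1 / 2 + σ)) := by
      have h3 : HasSum (fun n : ℕ => 1 / (n : ℝ) ^ (1 / 2 + σ)) (T (1 / 2 + σ)) :=
        (Real.summable_one_div_nat_rpow.2 (by linarith)).hasSum
      rw [← hasSum_nat_add_iff' 1] at h3
      simp only [Finset.range_one, Finset.sum_singleton, Nat.cast_zero] at h3
      rw [Real.zero_rpow (by linarith), div_zero, sub_zero] at h3
      have e0 : (fun n : ℕ => ((n + 1 : ℕ) : ℝ) ^ (-(1 / 2 + σ))) =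
          fun n : ℕ => 1 / ((n + 1 : ℕ) : ℝ) ^ (1 / 2 + σ) := by
        funext n
        rw [Real.rpow_neg (by positivity), one_div ((((n + 1 : ℕ) : ℝ)) ^ (1 / 2 + σ))]
      rw [e0]
      exact h3
    have hite : HasSum (fun n : ℕ => if n < N0 then C else 0) (N0 * C) := by
      have h4 : HasSum (fun n : ℕ => if n < N0 then C else 0)
          (∑ b ∈ Finset.range N0, (if b < N0 then C else 0)) :=
        hasSum_sum_of_ne_finset_zero (fun b hb => if_neg (by simpa using hb))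
      have e : ∑ b ∈ Finset.range N0, (if b < N0 then C else 0) = N0 * C := by
        rw [Finset.sum_congr rfl (fun b hb => if_pos (Finset.mem_range.1 hb))]
        simp
      rwa [e] at h4
    have hall := ((hTs.mul_left (c)).add hite).mul_left (1 / 2)
    refine tsum_of_norm_bounded hall (fun n => ?_)
    refine (norm_tm_le f n σ (by simpa using (by linarith : 0 < σ))).trans ?_
    have hn1 : (1 : ℝ) ≤ ((n + 1 : ℕ) : ℝ) := by push_cast; linarith [Nat.cast_nonneg (α := ℝ) n]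
    have hn0 : (0 : ℝ) < ((n + 1 : ℕ) : ℝ) := by linarith
    have e1 : ‖(σ : ℂ) - 1‖ ≤ 1 / 2 := by
      rw [← Complex.ofReal_one, ← Complex.ofReal_sub, Complex.norm_real, Real.norm_eq_abs,
        abs_le]
      constructor <;> linarith
    rw [Complex.ofReal_re]
    have e2 : (0 : ℝ) < ((n + 1 : ℕ) : ℝ) ^ (-σ) := Real.rpow_pos_of_pos hn0 _
    have e3 : ((n + 1 : ℕ) : ℝ) ^ (-σ) ≤ 1 :=
      Real.rpow_le_one_of_one_le_of_nonpos hn1 (by linarith)
    have main : ‖S f (n + 1)‖ * ((n + 1 : ℕ) : ℝ) ^ (-σ) ≤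
        c * ((n + 1 : ℕ) : ℝ) ^ (-(1 / 2 + σ)) + (if n < N0 then C else 0) := by
      split_ifs with hlt
      · have h5 := hC.2 (n + 1) (by omega)
        have h6 : ((n + 1 : ℕ) : ℝ) ^ (-(1 / 2) : ℝ) ≤ 1 :=
          Real.rpow_le_one_of_one_le_of_nonpos hn1 (by norm_num)
        have h7 : ‖S f (n + 1)‖ ≤ C := by
          calc ‖S f (n + 1)‖ ≤ C * ((n + 1 : ℕ) : ℝ) ^ (-(1 / 2) : ℝ) := h5
            _ ≤ C * 1 := mul_le_mul_of_nonneg_left h6 hC.1.le
            _ = C := mul_one C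
        have h8 : ‖S f (n + 1)‖ * ((n + 1 : ℕ) : ℝ) ^ (-σ) ≤ C * 1 :=
          mul_le_mul h7 e3 e2.le hC.1.le
        have h9 : 0 ≤ c * ((n + 1 : ℕ) : ℝ) ^ (-(1 / 2 + σ)) := by positivity
        linarith
      · have h5 := hN0 (n + 1) (by omega)
        rw [add_zero]
        calc ‖S f (n + 1)‖ * ((n + 1 : ℕ) : ℝ) ^ (-σ)
            ≤ (c * ((n + 1 : ℕ) : ℝ) ^ (-(1 / 2) : ℝ)) * ((n + 1 : ℕ) : ℝ) ^ (-σ) := by gcongr
          _ = c * (((n + 1 : ℕ) : ℝ) ^ (-(1 / 2) : ℝ) * ((n + 1 : ℕ) : ℝ) ^ (-σ)) := by ring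
          _ = _ := by
            rw [← Real.rpow_add hn0]
            congr 2
            ring
    calc ‖S f (n + 1)‖ * (‖(σ : ℂ) - 1‖ * ((n + 1 : ℕ) : ℝ) ^ (-σ))
        ≤ ‖S f (n + 1)‖ * (1 / 2 * ((n + 1 : ℕ) : ℝ) ^ (-σ)) := by gcongr
      _ = 1 / 2 * (‖S f (n + 1)‖ * ((n + 1 : ℕ) : ℝ) ^ (-σ)) := by ring
      _ ≤ _ := by gcongr
  have lim : Tendsto (fun σ : ℝ => c * ((σ - 1 / 2) * T (1 / 2 + σ)) +
      (σ - 1 / 2) * (N0 * C)) (𝓝[>] (1 / 2)) (𝓝 (c * 1 + 0 * (N0 * C))) := by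
    refine (hTt.const_mul _).add (Tendsto.mul_const _ ?_)
    have : Tendsto (fun σ : ℝ => σ - 1 / 2) (𝓝 (1 / 2)) (𝓝 (1 / 2 - 1 / 2)) :=
      (continuous_id.sub continuous_const).tendsto _
    rw [sub_self] at this
    exact this.mono_left nhdsWithin_le_nhds
  have hlt1 : ∀ᶠ σ : ℝ in 𝓝[>] (1 / 2), σ < 1 :=
    (gt_mem_nhds (by norm_num : (1 / 2 : ℝ) < 1)).filter_mono nhdsWithin_le_nhds
  refine ⟨fun σ => c * ((σ - 1 / 2) * T (1 / 2 + σ)) + (σ - 1 / 2) * (N0 * C), ?_, ?_⟩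
  · simpa using lim
  filter_upwards [hlt1, self_mem_nhdsWithin] with σ a2 a3
  have a3' : 1 / 2 < σ := a3
  have := mul_le_mul_of_nonneg_left (key σ a3' a2) (by linarith : (0 : ℝ) ≤ 2 * σ - 1)
  refine this.trans (le_of_eq ?_)
  ring

lemma exists_Bd' (f : ℕ → ℂ) (c : ℝ) (hc : 0 < c)
    (h : ∀ᶠ N : ℕ in atTop, ‖S f N‖ ≤ c * (N : ℝ) ^ (-(1 / 2) : ℝ)) : ∃ C, Bd f C := by
  have h1 : (fun N : ℕ => S f N) =O[atTop] (fun N : ℕ => (N : ℝ) ^ (-(1 / 2) : ℝ)) := by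
    refine IsBigO.of_bound c ?_
    filter_upwards [h] with N hN
    rwa [Real.norm_of_nonneg (by positivity)]
  obtain ⟨C, hC, h⟩ := bound_of_isBigO_nat_atTop h1
  refine ⟨C, hC, fun n hn => ?_⟩
  have hn0 : (0 : ℝ) < n := by exact_mod_cast hn
  have h2 : (0 : ℝ) < (n : ℝ) ^ (-(1 / 2) : ℝ) := Real.rpow_pos_of_pos hn0 _
  have := h (x := n) h2.ne'
  rwa [Real.norm_of_nonneg h2.le] at this

/-- the ratio -/
noncomputable def rat (f : ℕ → ℂ) (p : ℕ) : ℝ :=
  ‖1 - (Real.sqrt p : ℂ) * f p‖ / (1 + 1 / Real.sqrt p)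

lemma rat_nonneg (f : ℕ → ℂ) (p : ℕ) : 0 ≤ rat f p := by unfold rat; positivity

lemma Rr_half (f : ℕ →*₀ ℂ) (p : ℕ) (hp : p.Prime) :
    Rr f p ((p : ℝ) ^ (-(1 / 2) : ℝ)) = rat f p := by
  have hp0 : (0 : ℝ) < p := by exact_mod_cast hp.pos
  have e0 : (p : ℝ) ^ (-(1 / 2) : ℝ) = 1 / Real.sqrt p := by
    rw [Real.sqrt_eq_rpow, Real.rpow_neg hp0.le, one_div ((p : ℝ) ^ (1 / 2 : ℝ))]
  unfold Rr rat
  rw [e0]
  set s := Real.sqrt p with hs
  have hs0 : 0 < s := Real.sqrt_pos.2 hp0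
  have hss : s * s = p := Real.mul_self_sqrt hp0.le
  have e : gh f p * ((1 / s : ℝ) : ℂ) = (s : ℂ) * f p := by
    rw [gh_apply]
    have h1 : ((p : ℕ) : ℂ) = (s : ℂ) * (s : ℂ) := by
      rw [← Complex.ofReal_mul, hss]; simp
    rw [h1]
    have h2 : (s : ℂ) ≠ 0 := by exact_mod_cast hs0.ne'
    push_cast
    field_simp
  rw [e]

lemma Rr_tendsto (f : ℕ →*₀ ℂ) (p : ℕ) (hp : p.Prime) :
    Tendsto (fun σ : ℝ => Rr f p ((p : ℝ) ^ (-σ))) (𝓝[>] (1 / 2)) (𝓝 (rat f p)) := by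
  have hp0 : (0 : ℝ) < p := by exact_mod_cast hp.pos
  have h1 : Tendsto (fun σ : ℝ => (p : ℝ) ^ (-σ)) (𝓝[>] (1 / 2)) (𝓝 ((p : ℝ) ^ (-(1 / 2) : ℝ))) := by
    have : Continuous (fun σ : ℝ => (p : ℝ) ^ (-σ)) :=
      continuous_const.rpow continuous_neg (fun _ => Or.inl hp0.ne')
    exact (this.tendsto (1 / 2)).mono_left nhdsWithin_le_nhds
  rw [← Rr_half f p hp]
  have ht : 0 < (p : ℝ) ^ (-(1 / 2) : ℝ) := Real.rpow_pos_of_pos hp0 _
  have h2 : ContinuousAt (Rr f p) ((p : ℝ) ^ (-(1 / 2) : ℝ)) := by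
    unfold Rr
    refine ContinuousAt.div ?_ ?_ (by positivity)
    · fun_prop
    · fun_prop
  exact h2.tendsto.comp h1

theorem core' (f : ℕ →*₀ ℂ) (hA : HA f) (hE : Summable (fun p : Nat.Primes => dd f p)) (M : ℕ) (c : ℝ)
    (hc : 0 < c) (h : ∀ᶠ N : ℕ in atTop, ‖S f N‖ ≤ c * (N : ℝ) ^ (-(1 / 2) : ℝ)) :
    1 ≤ c * ‖riemannZeta (1 / 2)‖ * ((∏ p ∈ M.primesBelow, rat f p) * Real.exp (tW f M)) := by
  obtain ⟨C, hC⟩ := exists_Bd' f c hc h
  have h' : ∀ᶠ N : ℕ in atTop, ‖S (bar f) N‖ ≤ c * (N : ℝ) ^ (-(1 / 2) : ℝ) := by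
    filter_upwards [h] with N hN
    rw [S_bar, RCLike.norm_conj]
    exact hN
  obtain ⟨m₁, t1, b1⟩ := G_quant f C hC c hc h
  obtain ⟨m₂, t2, b2⟩ := G_quant (bar f) C (Bd_bar f C hC) c hc h'
  have t3 : Tendsto (fun σ : ℝ => ‖riemannZeta σ‖) (𝓝[>] (1 / 2)) (𝓝 ‖riemannZeta ((1 / 2 : ℝ) : ℂ)‖) := by
    have hc : ContinuousAt (fun σ : ℝ => ‖riemannZeta σ‖) (1 / 2) := by
      refine ContinuousAt.norm ?_
      have hd : DifferentiableAt ℂ riemannZeta ((1 / 2 : ℝ) : ℂ) :=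
        differentiableAt_riemannZeta (by
          intro h
          have := congrArg Complex.re h
          norm_num at this)
      exact ContinuousAt.comp (f := fun σ : ℝ => (σ : ℂ)) hd.continuousAt
        Complex.continuous_ofReal.continuousAt
    exact hc.tendsto.mono_left nhdsWithin_le_nhds
  have t4 : Tendsto (fun σ : ℝ => (2 * σ - 1) * ‖riemannZeta (2 * σ)‖) (𝓝[>] (1 / 2)) (𝓝 1) := by
    have hcomp : Tendsto (fun σ : ℝ => 2 * (σ : ℂ)) (𝓝[>] (1 / 2)) (𝓝[≠] 1) := by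
      refine tendsto_nhdsWithin_iff.2 ⟨?_, ?_⟩
      · have : Tendsto (fun σ : ℝ => 2 * (σ : ℂ)) (𝓝 (1 / 2)) (𝓝 (2 * ((1 / 2 : ℝ) : ℂ))) :=
          (continuous_const.mul Complex.continuous_ofReal).tendsto _
        have e : 2 * ((1 / 2 : ℝ) : ℂ) = 1 := by push_cast; norm_num
        rw [e] at this
        exact this.mono_left nhdsWithin_le_nhds
      · filter_upwards [self_mem_nhdsWithin] with σ hσ
        have hσ' : 1 / 2 < σ := hσ
        intro h
        have := congrArg Complex.re h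
        simp at this
        linarith
    have h5 := (riemannZeta_residue_one.comp hcomp).norm
    rw [norm_one] at h5
    refine h5.congr' ?_
    filter_upwards [self_mem_nhdsWithin] with σ hσ
    have hσ' : 1 / 2 < σ := hσ
    simp only [Function.comp]
    rw [norm_mul]
    congr 1
    have e : 2 * (σ : ℂ) - 1 = ((2 * σ - 1 : ℝ) : ℂ) := by push_cast; ring
    rw [e, Complex.norm_real, Real.norm_of_nonneg (by linarith)]
  have hle : ∀ᶠ σ : ℝ in 𝓝[>] (1 / 2), ((2 * σ - 1) * ‖riemannZeta (2 * σ)‖) ^ 2 ≤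
      ‖riemannZeta σ‖ ^ 2 * (m₁ σ * m₂ σ) *
        ((∏ p ∈ M.primesBelow, Rr f p ((p : ℝ) ^ (-σ))) * Real.exp (tW f M)) ^ 2 := by
    have hlt1 : ∀ᶠ σ : ℝ in 𝓝[>] (1 / 2), σ < 1 :=
      (gt_mem_nhds (by norm_num : (1 / 2 : ℝ) < 1)).filter_mono nhdsWithin_le_nhds
    filter_upwards [hlt1, self_mem_nhdsWithin, b1, b2] with σ a2 a3 b1 b2
    have a3' : 1 / 2 < σ := a3
    have hne : (σ : ℂ) ≠ 1 := by
      intro h
      have := congrArg Complex.re h
      simp at this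
      linarith
    have h6 := zeta_sq_le' f C hC hA hE M σ a3' (by linarith)
    rw [Zf_of_ne _ hne, Zf_of_ne _ hne, norm_mul, norm_mul] at h6
    have h7 := mul_le_mul_of_nonneg_left h6 (sq_nonneg (2 * σ - 1))
    have hx : 0 ≤ 2 * σ - 1 := by linarith
    calc ((2 * σ - 1) * ‖riemannZeta (2 * σ)‖) ^ 2
        = (2 * σ - 1) ^ 2 * ‖riemannZeta (2 * σ)‖ ^ 2 := by ring
      _ ≤ _ := h7
      _ = ‖riemannZeta σ‖ ^ 2 * (((2 * σ - 1) * ‖G f σ‖) * ((2 * σ - 1) * ‖G (bar f) σ‖)) *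
          ((∏ p ∈ M.primesBelow, Rr f p ((p : ℝ) ^ (-σ))) * Real.exp (tW f M)) ^ 2 := by ring
      _ ≤ _ := by
        have g1 : 0 ≤ (2 * σ - 1) * ‖G f σ‖ := by positivity
        have g2 : 0 ≤ (2 * σ - 1) * ‖G (bar f) σ‖ := by positivity
        have g3 : 0 ≤ m₁ σ := g1.trans b1
        gcongr
  have t5 : Tendsto (fun σ : ℝ => ((∏ p ∈ M.primesBelow, Rr f p ((p : ℝ) ^ (-σ))) *
      Real.exp (tW f M)) ^ 2) (𝓝[>] (1 / 2))
      (𝓝 (((∏ p ∈ M.primesBelow, rat f p) * Real.exp (tW f M)) ^ 2)) := by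
    refine Tendsto.pow (Tendsto.mul_const _ ?_) 2
    exact tendsto_finsetProd _ fun p hp => Rr_tendsto f p (Nat.prime_of_mem_primesBelow hp)
  have hlim := le_of_tendsto_of_tendsto (t4.pow 2) (((t3.pow 2).mul (t1.mul t2)).mul t5) hle
  have e1 : (((1 / 2 : ℝ) : ℝ) : ℂ) = 1 / 2 := by push_cast; rfl
  rw [e1] at hlim
  set z := ‖riemannZeta (1 / 2)‖ with hz
  set D := (∏ p ∈ M.primesBelow, rat f p) * Real.exp (tW f M) with hD
  have hz0 : 0 ≤ z := norm_nonneg _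
  have hD0 : 0 ≤ D := by
    rw [hD]
    exact mul_nonneg (Finset.prod_nonneg fun p _ => rat_nonneg f p) (Real.exp_pos _).le
  have h8 : (1 : ℝ) ≤ (c * z * D) ^ 2 := by
    calc (1 : ℝ) = 1 ^ 2 := by norm_num
      _ ≤ _ := hlim
      _ = _ := by ring
  have hh : 0 ≤ c * z * D := by positivity
  nlinarith

/-- the conclusion for a bounded `√N |S(N)|` -/
theorem core2 (f : ℕ →*₀ ℂ) (hA : HA f) (hE : Summable (fun p : Nat.Primes => dd f p)) (c : ℝ)
    (hc : 0 < c) (h : ∀ᶠ N : ℕ in atTop, ‖S f N‖ ≤ c * (N : ℝ) ^ (-(1 / 2) : ℝ)) :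
    (∀ p : ℕ, p.Prime → 0 < rat f p) ∧ Summable (fun p : Nat.Primes => Real.log (rat f p)) ∧
    Real.exp (-∑' p : Nat.Primes, Real.log (rat f p)) ≤ c * ‖riemannZeta (1 / 2)‖ := by
  classical
  have hW := W_summable f hE
  have key := fun M => core' f hA hE M c hc h
  set z := ‖riemannZeta (1 / 2)‖ with hz
  have hz0 : 0 < z := by
    rcases (norm_nonneg (riemannZeta (1 / 2))).eq_or_lt with h0 | h0
    · have := key 0
      rw [hz, ← h0] at this
      norm_num at this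
    · exact h0
  have hpos : ∀ p : ℕ, p.Prime → 0 < rat f p := by
    intro p hp
    rcases (rat_nonneg f p).eq_or_lt with h0 | h0
    · have h1 := key (p + 1)
      have h2 : ∏ q ∈ (p + 1).primesBelow, rat f q = 0 := by
        refine Finset.prod_eq_zero (i := p) ?_ h0.symm
        simp [Nat.primesBelow, hp]
      rw [h2, zero_mul, mul_zero] at h1
      norm_num at h1
    · exact h0
  refine ⟨hpos, ?_⟩
  -- the negative parts
  set v : ℕ → ℝ := fun n => if n.Prime then dd f n - Real.log (rat f n) else 0 with hv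
  have hdd : ∀ n, dd f n = max 0 (Real.log (rat f n)) := fun n => rfl
  have hv0 : ∀ n, 0 ≤ v n := by
    intro n
    simp only [hv]
    split_ifs
    · rw [hdd]
      have := le_max_right 0 (Real.log (rat f n))
      linarith
    · exact le_rfl
  have hbound : ∀ M, ∑ n ∈ range M, v n ≤ Real.log (c * z) + ∑' n, W f n := by
    intro M
    have h1 := key M
    have hprod0 : 0 < ∏ p ∈ M.primesBelow, rat f p :=
      Finset.prod_pos fun p hp => hpos p (Nat.prime_of_mem_primesBelow hp)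
    have h2 := Real.log_nonneg h1
    rw [Real.log_mul (by positivity) (by positivity), Real.log_mul hprod0.ne' (Real.exp_pos _).ne',
      Real.log_exp, Real.log_prod (fun p hp => (hpos p (Nat.prime_of_mem_primesBelow hp)).ne')] at h2
    have h3 : ∑ n ∈ range M, v n = ∑ n ∈ range M, W f n -
        ∑ p ∈ M.primesBelow, Real.log (rat f p) := by
      rw [Nat.primesBelow, Finset.sum_filter, ← Finset.sum_sub_distrib]
      refine Finset.sum_congr rfl fun n _ => ?_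
      simp only [hv, W]
      split_ifs
      · rfl
      · ring
    have h4 : ∑' n, W f n = ∑ n ∈ range M, W f n + tW f M := by
      have h5 : ∀ n, W f n = (if n < M then W f n else 0) + (if M ≤ n then W f n else 0) := by
        intro n
        rcases Nat.lt_or_ge n M with h | h
        · rw [if_pos h, if_neg (by omega), add_zero]
        · rw [if_neg (by omega), if_pos h, zero_add]
      have h6 : HasSum (fun n => if n < M then W f n else 0) (∑ n ∈ range M, W f n) := by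
        have : HasSum (fun n => if n < M then W f n else 0)
            (∑ b ∈ range M, (if b < M then W f b else 0)) :=
          hasSum_sum_of_ne_finset_zero (fun b hb => if_neg (by simpa using hb))
        rwa [Finset.sum_congr rfl (fun b hb => if_pos (Finset.mem_range.1 hb))] at this
      have h7 := h6.add (tW_summable f hW M).hasSum
      have h8 : (fun n => (if n < M then W f n else 0) + (if M ≤ n then W f n else 0)) = W f :=
        funext fun n => (h5 n).symm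
      rw [h8] at h7
      exact h7.tsum_eq
    rw [h3, h4]
    linarith
  have hvs : Summable v := summable_of_sum_range_le hv0 hbound
  have hvt : ∑' n, v n ≤ Real.log (c * z) + ∑' n, W f n := hvs.tsum_le_of_sum_range_le hbound
  have hL : Summable (fun n => W f n - v n) := hW.sub hvs
  have hLe : (fun n => W f n - v n) = {n : ℕ | n.Prime}.indicator (fun n => Real.log (rat f n)) := by
    funext n
    rw [Set.indicator_apply]
    simp only [hv, W, Set.mem_ofPred_eq]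
    split_ifs
    · ring
    · ring
  have hS : Summable (fun p : Nat.Primes => Real.log (rat f p)) := by
    rw [hLe] at hL
    exact (summable_subtype_iff_indicator (f := fun n => Real.log (rat f n))
      (s := {p : ℕ | p.Prime})).2 hL
  refine ⟨hS, ?_⟩
  have hT : ∑' p : Nat.Primes, Real.log (rat f p) = ∑' n, W f n - ∑' n, v n := by
    have h1 := tsum_subtype (s := {p : ℕ | p.Prime}) (fun n => Real.log (rat f n))
    rw [← hLe, hW.tsum_sub hvs] at h1
    exact h1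
  rw [hT]
  have h9 : -(∑' n, W f n - ∑' n, v n) ≤ Real.log (c * z) := by linarith
  calc Real.exp (-(∑' n, W f n - ∑' n, v n)) ≤ Real.exp (Real.log (c * z)) := Real.exp_le_exp.2 h9
    _ = c * z := Real.exp_log (by positivity)

end Pool.Agent.Q311.KS
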